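import Pool.Agent.Lib.MP_1176eb_al.Lim

/-!
# The derivative functors `D^k` are exact on `M_∞(GL(n,F))`, `F = ℝ` or `ℂ`
-/

set_option autoImplicit false

namespace Pool.Agent.Results.MP_1176eb_al.Exact

open Pool.Agent.Lib.MP_1176eb_al

theorem result (F : Type) [RCLike F] (n k : ℕ) (hk1 : 1 ≤ k) (hkn : k ≤ n)
    (V₁ V₂ V₃ : Type*) [AddCommGroup V₁] [Module ℂ V₁] [UniformSpace V₁] [Frechet V₁]
    [AddCommGroup V₂] [Module ℂ V₂] [UniformSpace V₂] [Frechet V₂]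
    [AddCommGroup V₃] [Module ℂ V₃] [UniformSpace V₃] [Frechet V₃]
    (π₁ : Obj F n V₁) (π₂ : Obj F n V₂) (π₃ : Obj F n V₃) (f : V₁ →L[ℂ] V₂) (g : V₂ →L[ℂ] V₃)
    (hf : ∀ x v, f (π₁.ρ x v) = π₂.ρ x (f v)) (hg : ∀ x v, g (π₂.ρ x v) = π₃.ρ x (g v))
    (inj : Function.Injective f) (ex : Function.Exact f g) (surj : Function.Surjective g) :
    ∃ (a : Der π₁ k → Der π₂ k) (b : Der π₂ k → Der π₃ k), Induces f a ∧ Induces g b ∧
      Function.Injective a ∧ (∀ y, (∀ l, (b y).val l = 0) ↔ ∃ x, a x = y) ∧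
      Function.Surjective b :=
  exact_of_ar (f := (f : V₁ →ₗ[ℂ] V₂)) (g := (g : V₂ →ₗ[ℂ] V₃)) (π₁.toRep.map_d π₂.toRep f hf)
    (π₂.toRep.map_d π₃.toRep g hg) ex surj (π₁.toRep.ar π₂.toRep f hf inj
      ((Set.ext ex : {v | g v = 0} = Set.range f) ▸ isClosed_eq g.continuous continuous_const)
      hk1 hkn)

end Pool.Agent.Results.MP_1176eb_al.Exact
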